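import Mathlib
import Pool.Agent.H54.G.W237.RK.LDefs

set_option autoImplicit false
set_option linter.unusedVariables false

/-!
# The local main theorem (RK-L11)
-/

namespace Pool.Agent.W133.RK

open Polynomial
open Pool.Agent.W237.RK

variable {p : ℕ} [Fact p.Prime]

/-! ## Basic lemmas -/

lemma norm_aut (σ : LAut p) (x : Om p) : ‖σ x‖ = ‖x‖ :=
  (spectralNorm_eq_of_equiv (K := ℚ_[p]) (L := PadicAlgCl p) σ x).symm

/-- the fixed field of an automorphism -/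
def fx (σ : LAut p) : LF p where
  carrier := {x | σ x = x}
  mul_mem' := by
    intro a b ha hb
    simp only [Set.mem_ofPred_eq] at *
    rw [map_mul, ha, hb]
  one_mem' := map_one σ
  add_mem' := by
    intro a b ha hb
    simp only [Set.mem_ofPred_eq] at *
    rw [map_add, ha, hb]
  zero_mem' := map_zero σ
  algebraMap_mem' := fun r => σ.commutes r
  inv_mem' := by
    intro a ha
    simp only [Set.mem_ofPred_eq] at *
    rw [map_inv₀, ha]

lemma mem_fx {σ : LAut p} {x : Om p} : x ∈ fx σ ↔ σ x = x := Iff.rfl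

lemma lfix_iff {F : LF p} {σ : LAut p} : LFix F σ ↔ F ≤ fx σ := Iff.rfl

lemma lfix_mono {F G : LF p} (h : F ≤ G) {σ : LAut p} (hσ : LFix G σ) : LFix F σ :=
  fun x hx => hσ x (h hx)

lemma lfix_one (F : LF p) : LFix F (1 : LAut p) := fun _ _ => rfl

lemma lfix_mul {F : LF p} {σ τ : LAut p} (hσ : LFix F σ) (hτ : LFix F τ) : LFix F (σ * τ) := by
  intro x hx
  rw [AlgEquiv.mul_apply, hτ x hx, hσ x hx]

lemma lfix_inv {F : LF p} {σ : LAut p} (hσ : LFix F σ) : LFix F σ⁻¹ := by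
  intro x hx
  rw [AlgEquiv.aut_inv, AlgEquiv.symm_apply_eq]
  exact (hσ x hx).symm

lemma lfix_pow {F : LF p} {σ : LAut p} (hσ : LFix F σ) (n : ℕ) : LFix F (σ ^ n) := by
  induction n with
  | zero => rw [pow_zero]; exact lfix_one F
  | succ n ih => rw [pow_succ]; exact lfix_mul ih hσ

lemma llev_le {k F : LF p} {A : Finset (Om p)} {N R : ℕ} (hk : k ≤ F)
    (h1 : ∀ x : Om p, x ^ N = 1 → x ∈ F) (h2 : ∀ y : Om p, ∀ a ∈ A, y ^ R = a → y ∈ F) :
    llev k A N R ≤ F := by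
  refine sup_le hk ?_
  rw [IntermediateField.adjoin_le_iff]
  rintro x (hx | ⟨a, ha, hy⟩)
  · exact h1 x hx
  · exact h2 x a ha hy

lemma le_llev (k : LF p) (A : Finset (Om p)) (N R : ℕ) : k ≤ llev k A N R := le_sup_left

lemma mem_llev_root (k : LF p) (A : Finset (Om p)) {N : ℕ} (R : ℕ) {x : Om p} (hx : x ^ N = 1) :
    x ∈ llev k A N R := by
  have : x ∈ IntermediateField.adjoin ℚ_[p] ({x : Om p | x ^ N = 1} ∪ {y | ∃ a ∈ A, y ^ R = a}) :=
    IntermediateField.subset_adjoin _ _ (Or.inl hx)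
  exact (le_sup_right : _ ≤ llev k A N R) this

lemma mem_llev_rad (k : LF p) {A : Finset (Om p)} (N : ℕ) {R : ℕ} {a y : Om p} (ha : a ∈ A)
    (hy : y ^ R = a) : y ∈ llev k A N R := by
  have : y ∈ IntermediateField.adjoin ℚ_[p] ({x : Om p | x ^ N = 1} ∪ {y | ∃ a ∈ A, y ^ R = a}) :=
    IntermediateField.subset_adjoin _ _ (Or.inr ⟨a, ha, hy⟩)
  exact (le_sup_right : _ ≤ llev k A N R) this

lemma lorb_finite (F : LF p) (x : Om p) : (lorb F x).Finite := by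
  apply Set.Finite.subset ((minpoly ℚ_[p] x).rootSet_finite (Om p))
  rintro y ⟨σ, -, rfl⟩
  rw [Polynomial.mem_rootSet]
  refine ⟨minpoly.ne_zero (Algebra.IsIntegral.isIntegral x), ?_⟩
  have := Polynomial.aeval_algHom_apply (σ : Om p →ₐ[ℚ_[p]] Om p) x (minpoly ℚ_[p] x)
  simp only [minpoly.aeval, map_zero] at this
  exact this

lemma self_mem_lorb (F : LF p) (x : Om p) : x ∈ lorb F x := ⟨1, lfix_one F, rfl⟩

lemma mem_kur_of_pow {M : ℕ} (hM : ¬ p ∣ M) {x : Om p} (hx : x ^ M = 1) : x ∈ kur p :=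
  IntermediateField.subset_adjoin _ _ ⟨M, hM, hx⟩

lemma p_pos : 0 < p := (Fact.out : p.Prime).pos

lemma one_lt_p : (1 : ℝ) < p := by exact_mod_cast (Fact.out : p.Prime).one_lt

lemma p_pos' : (0 : ℝ) < p := by exact_mod_cast (Fact.out : p.Prime).pos

/-- a radical extension of a finite extension is finite -/
lemma finite_roots {N : ℕ} (hN : N ≠ 0) (a : Om p) : {y : Om p | y ^ N = a}.Finite := by
  have h : {y : Om p | y ^ N = a} ⊆ ((X ^ N - C a : (Om p)[X])).rootSet (Om p) := by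
    intro y hy
    rw [Polynomial.mem_rootSet]
    refine ⟨Polynomial.X_pow_sub_C_ne_zero (Nat.pos_of_ne_zero hN) a, ?_⟩
    simp only [Set.mem_ofPred_eq] at hy
    simp [hy]
  exact Set.Finite.subset (Polynomial.rootSet_finite _ _) h

lemma finOver_sup {F k : LF p} (hk : FinOver F k) {S : Set (Om p)} (hS : S.Finite) :
    FinOver F (k ⊔ IntermediateField.adjoin ℚ_[p] S) := by
  classical
  obtain ⟨s, hs⟩ := hk
  refine ⟨s ∪ hS.toFinset, ?_⟩
  rw [hs, sup_assoc, ← IntermediateField.adjoin_union]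
  simp

lemma finOver_llev {F k : LF p} (hk : FinOver F k) (A : Finset (Om p)) {N R : ℕ} (hN : N ≠ 0)
    (hR : R ≠ 0) : FinOver F (llev k A N R) := by
  apply finOver_sup hk
  apply Set.Finite.union (finite_roots hN 1)
  have : {y : Om p | ∃ a ∈ A, y ^ R = a} = ⋃ a ∈ A, {y : Om p | y ^ R = a} := by
    ext y; simp
  rw [this]
  exact A.finite_toSet.biUnion (fun a _ => finite_roots hR a)

lemma lnormal_llev (k : LF p) {A : Finset (Om p)} (hA : ∀ a ∈ A, a ∈ k) (N R : ℕ) :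
    LNormal k (llev k A N R) := by
  intro σ hσ x hx
  have h : llev k A N R ≤ (llev k A N R).comap (σ : Om p →ₐ[ℚ_[p]] Om p) := by
    apply llev_le
    · intro x hx
      have : σ x = x := hσ x hx
      change σ x ∈ llev k A N R
      rw [this]
      exact le_llev k A N R hx
    · intro x hx
      change σ x ∈ llev k A N R
      apply mem_llev_root
      rw [← map_pow, hx, map_one]
    · intro y a ha hy
      change σ y ∈ llev k A N R
      apply mem_llev_rad k N ha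
      rw [← map_pow, hy]
      exact hσ a (hA a ha)
  exact h hx

/-! ## Estimates -/

lemma norm_pow_sub_pow_le {a b : Om p} (ha : ‖a‖ ≤ 1) (hb : ‖b‖ ≤ 1) (j : ℕ) :
    ‖a ^ j - b ^ j‖ ≤ ‖a - b‖ := by
  rw [← geom_sum₂_mul, norm_mul]
  have h : ‖∑ i ∈ Finset.range j, a ^ i * b ^ (j - 1 - i)‖ ≤ 1 := by
    apply IsUltrametricDist.norm_sum_le_of_forall_le_of_nonneg zero_le_one
    intro i _
    rw [norm_mul, norm_pow, norm_pow]
    exact mul_le_one₀ (pow_le_one₀ (norm_nonneg _) ha) (pow_nonneg (norm_nonneg _) _)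
      (pow_le_one₀ (norm_nonneg _) hb)
  calc _ ≤ 1 * ‖a - b‖ := mul_le_mul_of_nonneg_right h (norm_nonneg _)
    _ = ‖a - b‖ := one_mul _

lemma norm_eval_sub_le (P : (Om p)[X]) (hP : ∀ j, ‖P.coeff j‖ ≤ 1) {a b : Om p} (ha : ‖a‖ ≤ 1)
    (hb : ‖b‖ ≤ 1) : ‖P.eval a - P.eval b‖ ≤ ‖a - b‖ := by
  rw [Polynomial.eval_eq_sum_range, Polynomial.eval_eq_sum_range, ← Finset.sum_sub_distrib]
  apply IsUltrametricDist.norm_sum_le_of_forall_le_of_nonneg (norm_nonneg _)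
  intro j _
  rw [← mul_sub, norm_mul]
  calc ‖P.coeff j‖ * ‖a ^ j - b ^ j‖ ≤ 1 * ‖a - b‖ :=
        mul_le_mul (hP j) (norm_pow_sub_pow_le ha hb j) (norm_nonneg _) zero_le_one
    _ = ‖a - b‖ := one_mul _

lemma eval_aut (σ : LAut p) (hσ : LFix (kur p) σ) (P : (Om p)[X]) (hP : ∀ j, P.coeff j ∈ kur p)
    (x : Om p) : σ (P.eval x) = P.eval (σ x) := by
  rw [Polynomial.eval_eq_sum_range, Polynomial.eval_eq_sum_range, map_sum]
  apply Finset.sum_congr rfl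
  intro j _
  rw [map_mul, map_pow, hσ _ (hP j)]

/-- an automorphism over `kur` moves the integers of `L` at most as much as a uniformiser -/
lemma move_le (hS : S_STRUCT) {L : LF p} (hL : FinOver (kur p) L) {π : Om p} (hπ : Unif L π)
    {σ : LAut p} (hσ : LFix (kur p) σ) {x : Om p} (hx : x ∈ L) (hx1 : ‖x‖ ≤ 1) :
    ‖σ x - x‖ ≤ ‖σ π - π‖ := by
  obtain ⟨P, hP, hPx⟩ := (hS p L hL).2.1 π hπ x hx hx1
  have h1 : ‖π‖ ≤ 1 := hπ.2.2.1.le
  have h2 : ‖σ π‖ ≤ 1 := by rw [norm_aut]; exact h1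
  rw [← hPx, eval_aut σ hσ P (fun j => (hP j).1)]
  exact norm_eval_sub_le P (fun j => (hP j).2) h2 h1

lemma exists_factor {α : Type*} {S : Set α} (hS : S.Finite) (f : α → ℝ) (h0 : ∀ y ∈ S, 0 ≤ f y)
    (h1 : ∀ y ∈ S, f y ≤ 1) (N : ℕ) (hN : S.ncard ≤ N) (c : ℝ) (hc : ∏ᶠ y ∈ S, f y ≤ c)
    (hne : c < 1 ∨ S.Nonempty) : ∃ y ∈ S, f y ^ N ≤ c := by
  rw [finprod_mem_eq_finite_toFinset_prod f hS] at hc
  have hne' : hS.toFinset.Nonempty := by
    rcases hne with h | h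
    · by_contra hcon
      rw [Finset.not_nonempty_iff_eq_empty] at hcon
      rw [hcon, Finset.prod_empty] at hc
      linarith
    · simpa using h
  obtain ⟨y, hy, hmin⟩ := Finset.exists_min_image hS.toFinset f hne'
  have hyS : y ∈ S := by simpa using hy
  refine ⟨y, hyS, ?_⟩
  calc f y ^ N ≤ f y ^ S.ncard := pow_le_pow_of_le_one (h0 y hyS) (h1 y hyS) hN
    _ = ∏ z ∈ hS.toFinset, f y := by
        rw [Finset.prod_const, Set.ncard_eq_toFinset_card S hS]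
    _ ≤ ∏ z ∈ hS.toFinset, f z := by
        apply Finset.prod_le_prod
        · intro i _; exact h0 y hyS
        · intro i hi; exact hmin i hi
    _ ≤ c := hc

lemma ldiff_le_one (F : LF p) {π : Om p} (hπ : ‖π‖ ≤ 1) : ldiff F π ≤ 1 := by
  unfold ldiff
  have hfin : (lorb F π \ {π}).Finite := (lorb_finite F π).sdiff
  rw [finprod_mem_eq_finite_toFinset_prod _ hfin]
  apply Finset.prod_le_one
  · intro i _; exact norm_nonneg _
  · intro i hi
    have hi' : i ∈ lorb F π := by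
      have : i ∈ lorb F π \ {π} := by simpa using hi
      exact this.1
    obtain ⟨σ, -, rfl⟩ := hi'
    calc ‖π - σ π‖ ≤ max ‖π‖ ‖σ π‖ := by
          simpa [sub_eq_add_neg] using IsUltrametricDist.norm_add_le_max π (-(σ π))
      _ ≤ 1 := by rw [norm_aut]; simpa using hπ

lemma ldiff_nonneg (F : LF p) (π : Om p) : 0 ≤ ldiff F π := by
  unfold ldiff
  have hfin : (lorb F π \ {π}).Finite := (lorb_finite F π).sdiff
  rw [finprod_mem_eq_finite_toFinset_prod _ hfin]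
  exact Finset.prod_nonneg (fun i _ => norm_nonneg _)

/-- counting conjugates -/
lemma count_le {ι : Type*} [Fintype ι] {F L : LF p} {π : Om p} (hπ : π ∈ L) (g : ι → Om p)
    (hg : ∀ j, g j ≠ 0) (R : ℕ) (hR : 0 < R)
    (hgR : ∀ σ : LAut p, LFix F σ → ∀ j, (σ (g j) / g j) ^ R = 1)
    (hgen : ∀ σ : LAut p, LFix F σ → (∀ j, σ (g j) = g j) → LFix L σ) :
    (lorb F π).ncard ≤ R ^ Fintype.card ι := by
  classical
  let U : Finset (Om p) := (Polynomial.nthRootsFinset R (1 : Om p))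
  have hU : U.card ≤ R := by
    unfold U Polynomial.nthRootsFinset
    exact (Multiset.toFinset_card_le _).trans (Polynomial.card_nthRoots R 1)
  have hch : ∀ y : lorb F π, ∃ σ : LAut p, LFix F σ ∧ σ π = y.1 := fun y => y.2
  choose s hs1 hs2 using hch
  let φ : lorb F π → (ι → U) := fun y j => ⟨s y (g j) / g j, by
    unfold U
    rw [Polynomial.mem_nthRootsFinset hR]
    exact hgR _ (hs1 y) j⟩
  have hinj : Function.Injective φ := by
    intro y z hyz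
    have h1 : ∀ j, s y (g j) = s z (g j) := by
      intro j
      have := congrArg Subtype.val (congrFun hyz j)
      simp only [φ] at this
      exact (div_left_inj' (hg j)).mp this
    have h2 : LFix L ((s z)⁻¹ * s y) := by
      apply hgen _ (lfix_mul (lfix_inv (hs1 z)) (hs1 y))
      intro j
      rw [AlgEquiv.mul_apply, h1 j, AlgEquiv.aut_inv, AlgEquiv.symm_apply_apply]
    have h3 := h2 π hπ
    rw [AlgEquiv.mul_apply, AlgEquiv.aut_inv, AlgEquiv.symm_apply_eq, hs2, hs2] at h3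
    exact Subtype.ext h3
  have := Nat.card_le_card_of_injective φ hinj
  rw [← Nat.card_coe_set_eq]
  refine this.trans ?_
  rw [Nat.card_eq_fintype_card, Fintype.card_fun, Fintype.card_coe]
  exact Nat.pow_le_pow_left hU _

lemma step1 (hS : S_STRUCT) (hF : S_FONT) (hK : S_KRAS) {k : LF p} (hk : kur p ≤ k)
    (hfk : FinOver (kur p) k) {A : Finset (Om p)} {V : ℕ}
    (hA : ∀ a ∈ A, a ∈ k ∧ a ≠ 0 ∧ ‖a‖ ≤ 1 ∧ ((p : ℝ) ^ V)⁻¹ ≤ ‖a‖) {i n M : ℕ} (hni : n ≤ i)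
    (hM : ¬ p ∣ M) {π : Om p} (hπ : Unif (llev k A (p ^ i) (p ^ n * M)) π) :
    ((p : ℝ) ^ (i + 3 + V))⁻¹ ≤ ldiff k π := by
  have hM0 : M ≠ 0 := by rintro rfl; exact hM (dvd_zero p)
  have hp0 : p ≠ 0 := (p_pos (p := p)).ne'
  have h := hF p k (llev k A (p ^ i) (p ^ n * M)) hk (le_llev k A _ _)
    (finOver_llev hfk A (pow_ne_zero _ hp0) (mul_ne_zero (pow_ne_zero _ hp0) hM0))
    (lnormal_llev k (fun a ha => (hA a ha).1) _ _) π hπ (i + 2 + V) (by omega)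
    (hK p k hk hfk A V hA i n M hni hM π hπ)
  have e : i + 3 + V = i + 2 + V + 1 := by omega
  rw [e]
  exact h

lemma exists_V (A : Finset (Om p)) (hA : ∀ a ∈ A, a ≠ 0) :
    ∃ V : ℕ, ∀ a ∈ A, ((p : ℝ) ^ V)⁻¹ ≤ ‖a‖ := by
  have h : ∀ a ∈ A, ∃ V : ℕ, ((p : ℝ) ^ V)⁻¹ ≤ ‖a‖ := by
    intro a ha
    have h1 : 0 < ‖a‖ := norm_pos_iff.mpr (hA a ha)
    obtain ⟨V, hV⟩ := exists_pow_lt_of_lt_one h1 (inv_lt_one_of_one_lt₀ (one_lt_p (p := p)))
    exact ⟨V, by rw [← inv_pow]; exact hV.le⟩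
  choose! v hv using h
  refine ⟨A.sup v, fun a ha => ?_⟩
  refine le_trans ?_ (hv a ha)
  apply inv_anti₀ (pow_pos p_pos' _)
  exact pow_le_pow_right₀ (one_lt_p (p := p)).le (Finset.le_sup ha)

/-! ## Roots of unity -/

lemma one_add_pow_aux (x : ℕ) (n : ℕ) : ∃ y : ℕ, (1 + x) ^ n = 1 + n * x + x ^ 2 * y := by
  induction n with
  | zero => exact ⟨0, by simp⟩
  | succ n ih =>
    obtain ⟨y, hy⟩ := ih
    refine ⟨n + y * (1 + x), ?_⟩
    rw [pow_succ, hy]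
    ring

omit [Fact p.Prime] in
lemma one_add_pow_pow {r w : ℕ} (hr : 2 ≤ r) (hw : ¬ p ∣ w) (j : ℕ) :
    ∃ w' : ℕ, ¬ p ∣ w' ∧ (1 + p ^ r * w) ^ (p ^ j) = 1 + p ^ (r + j) * w' := by
  induction j with
  | zero => exact ⟨w, hw, by simp⟩
  | succ j ih =>
    obtain ⟨w', hw', h⟩ := ih
    obtain ⟨y, hy⟩ := one_add_pow_aux (p ^ (r + j) * w') p
    obtain ⟨t, ht⟩ : ∃ t, r + j = t + 1 := ⟨r + j - 1, by omega⟩
    refine ⟨w' + p ^ t * w' ^ 2 * y, ?_, ?_⟩
    · intro hd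
      have ht1 : 1 ≤ t := by omega
      have h1 : p ∣ p ^ t * w' ^ 2 * y :=
        Dvd.dvd.mul_right (Dvd.dvd.mul_right (dvd_pow_self p (by omega)) _) _
      exact hw' ((Nat.dvd_add_left h1).mp hd)
    · rw [pow_succ, pow_mul, h, hy, ← add_assoc, ht]
      ring

lemma cyc_step {m B₀ : ℕ} (hm : B₀ + 2 ≤ m) {ζ : Om p} (hζ : IsPrimitiveRoot ζ (p ^ m))
    {σ : LAut p} (h1 : σ (ζ ^ (p ^ B₀)) = ζ ^ (p ^ B₀)) (h2 : σ ζ ≠ ζ) :
    ∃ N : ℕ, (σ ^ N) ζ ≠ ζ ∧ (σ ^ N) (ζ ^ p) = ζ ^ p := by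
  have hp0 : 0 < p := p_pos
  have hpm : 0 < p ^ m := pow_pos hp0 m
  have : NeZero (p ^ m) := ⟨hpm.ne'⟩
  have hζ0 : ζ ≠ 0 := hζ.ne_zero hpm.ne'
  have hdiv : (σ ζ / ζ) ^ (p ^ m) = 1 := by
    rw [div_pow, ← map_pow, hζ.pow_eq_one, map_one, div_one]
  obtain ⟨v, -, hv⟩ := hζ.eq_pow_of_pow_eq_one hdiv
  have hσζ : σ ζ = ζ ^ (1 + v) := by
    rw [pow_add, hv, pow_one]; field_simp
  have hv1 : (ζ ^ v) ^ (p ^ B₀) = 1 := by
    rw [hv, div_pow, ← map_pow, h1, div_self (pow_ne_zero _ hζ0)]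
  have hvm : ¬ p ^ m ∣ v := by
    intro hd
    apply h2
    rw [hσζ, pow_add, (hζ.pow_eq_one_iff_dvd v).mpr hd, pow_one, mul_one]
  have hv0 : v ≠ 0 := by rintro rfl; exact hvm (dvd_zero _)
  have hdvd : p ^ (m - B₀) ∣ v := by
    rw [← pow_mul] at hv1
    have h3 := (hζ.pow_eq_one_iff_dvd _).mp hv1
    have h4 : p ^ m = p ^ (m - B₀) * p ^ B₀ := by rw [← pow_add]; congr 1; omega
    rw [h4] at h3
    exact Nat.dvd_of_mul_dvd_mul_right (pow_pos hp0 _) h3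
  obtain ⟨r, w, hw, hvr⟩ := Nat.exists_eq_pow_mul_and_not_dvd hv0 p (Fact.out : p.Prime).ne_one
  have hr1 : m - B₀ ≤ r := by
    rw [hvr] at hdvd
    have h5 : p ^ (m - B₀) ∣ p ^ r := by
      apply Nat.Coprime.dvd_of_dvd_mul_right _ hdvd
      exact Nat.Coprime.pow_left _ (((Fact.out : p.Prime).coprime_iff_not_dvd).mpr hw)
    exact (Nat.pow_dvd_pow_iff_le_right (Fact.out : p.Prime).one_lt).mp h5
  have hr2 : r < m := by
    by_contra hcon
    apply hvm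
    rw [hvr]
    exact Dvd.dvd.mul_right (pow_dvd_pow p (by omega)) _
  have hpow : ∀ N : ℕ, (σ ^ N) ζ = ζ ^ ((1 + v) ^ N) := by
    intro N
    induction N with
    | zero => simp
    | succ N ih =>
      rw [pow_succ', AlgEquiv.mul_apply, ih, map_pow, hσζ, ← pow_mul, pow_succ']
  obtain ⟨w', hw', h6⟩ := one_add_pow_pow (p := p) (r := r) (by omega) hw (m - 1 - r)
  have h7 : r + (m - 1 - r) = m - 1 := by omega
  rw [h7, ← hvr] at h6
  have h8 : (σ ^ (p ^ (m - 1 - r))) ζ = ζ * ζ ^ (p ^ (m - 1) * w') := by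
    rw [hpow, h6, pow_add, pow_one]
  refine ⟨p ^ (m - 1 - r), ?_, ?_⟩
  · rw [h8]
    intro h9
    have h10 : ζ ^ (p ^ (m - 1) * w') = 1 := by
      have : ζ * ζ ^ (p ^ (m - 1) * w') = ζ * 1 := by rw [h9, mul_one]
      exact mul_left_cancel₀ hζ0 this
    have h11 := (hζ.pow_eq_one_iff_dvd _).mp h10
    have h12 : p ^ m = p ^ (m - 1) * p := by rw [← pow_succ]; congr 1; omega
    rw [h12] at h11
    exact hw' (Nat.dvd_of_mul_dvd_mul_left (pow_pos hp0 _) h11)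
  · rw [map_pow, h8, mul_pow, ← pow_mul]
    have h13 : p ^ (m - 1) * w' * p = p ^ m * w' := by
      have h12 : p ^ m = p ^ (m - 1) * p := by rw [← pow_succ]; congr 1; omega
      rw [h12]; ring
    rw [h13, pow_mul, hζ.pow_eq_one, one_pow, mul_one]

lemma norm_sub_pow_aut_le (σ : LAut p) (π : Om p) (N : ℕ) : ‖π - (σ ^ N) π‖ ≤ ‖π - σ π‖ := by
  induction N with
  | zero => simp
  | succ N ih =>
    have h : π - (σ ^ (N + 1)) π = (π - σ π) + σ (π - (σ ^ N) π) := by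
      rw [pow_succ', AlgEquiv.mul_apply, map_sub]; ring
    rw [h]
    refine (IsUltrametricDist.norm_add_le_max _ _).trans (max_le le_rfl ?_)
    rw [norm_aut]; exact ih

lemma exists_prim (n : ℕ) (hn : n ≠ 0) : ∃ ζ : Om p, IsPrimitiveRoot ζ n := by
  have : NeZero n := ⟨hn⟩
  have : NeZero (n : Om p) := ⟨by exact_mod_cast hn⟩
  exact HasEnoughRootsOfUnity.exists_primitiveRoot (Om p) n

/-- roots of unity of order `a * b` with `a`, `b` coprime -/
lemma root_decomp {a b : ℕ} (hab : Nat.Coprime a b) {ξ : Om p} (hξ0 : ξ ≠ 0)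
    (hξ : ξ ^ (a * b) = 1) : ∃ x y : Om p, x ^ a = 1 ∧ y ^ b = 1 ∧ ξ = x * y := by
  have hbez := Nat.gcd_eq_gcd_ab a b
  rw [Nat.coprime_iff_gcd_eq_one.mp hab] at hbez
  refine ⟨(ξ ^ b) ^ (Nat.gcdB a b), (ξ ^ a) ^ (Nat.gcdA a b), ?_, ?_, ?_⟩
  · rw [← zpow_natCast, zpow_comm, zpow_natCast, ← pow_mul, mul_comm b a, hξ, one_zpow]
  · rw [← zpow_natCast, zpow_comm, zpow_natCast, ← pow_mul, hξ, one_zpow]
  · rw [← zpow_natCast ξ b, ← zpow_natCast ξ a, ← zpow_mul, ← zpow_mul, ← zpow_add₀ hξ0]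
    conv_lhs => rw [← zpow_one ξ]
    congr 1
    rw [Nat.cast_one] at hbez
    linarith

/-! ## The cyclotomic part -/

lemma stepA (hS : S_STRUCT) (hT : S_TOWER) (hF : S_FONT) (hK : S_KRAS) {k : LF p}
    (hk : kur p ≤ k) (hfk : FinOver (kur p) k) {A : Finset (Om p)} {V : ℕ}
    (hA : ∀ a ∈ A, a ∈ k ∧ a ≠ 0 ∧ ‖a‖ ≤ 1 ∧ ((p : ℝ) ^ V)⁻¹ ≤ ‖a‖) {C : ℕ}
    (hC : ∀ (m : ℕ) (π : Om p), Unif (k ⊔ IntermediateField.adjoin ℚ_[p] {x | x ^ (p ^ m) = 1}) π →
      ldiff k π * (p : ℝ) ^ m ≤ (p : ℝ) ^ C) {m n M : ℕ} (hm : C + V + 5 + 2 ≤ m)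
    (hn : n ≤ m - (C + V + 5)) (hM : ¬ p ∣ M) {πE : Om p}
    (hπE : Unif (llev k A (p ^ m) (p ^ n * M)) πE) :
    ∃ σ : LAut p, LFix (llev k A (p ^ (m - (C + V + 5))) (p ^ n * M)) σ ∧ σ πE ≠ πE ∧
      ‖πE - σ πE‖ ^ (p ^ (C + V + 5)) ≤ (p : ℝ)⁻¹ := by
  have hM0 : M ≠ 0 := by rintro rfl; exact hM (dvd_zero p)
  have hp0 : p ≠ 0 := (p_pos (p := p)).ne'
  have hR0 : p ^ n * M ≠ 0 := mul_ne_zero (pow_ne_zero _ hp0) hM0
  set B₀ := C + V + 5 with hB₀
  set M₀ := llev k A (p ^ (m - B₀)) (p ^ n * M) with hM₀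
  set E := llev k A (p ^ m) (p ^ n * M) with hE
  set kμ := k ⊔ IntermediateField.adjoin ℚ_[p] {x : Om p | x ^ (p ^ m) = 1} with hkμ
  have hfM : FinOver (kur p) M₀ := finOver_llev hfk A (pow_ne_zero _ hp0) hR0
  have hfE : FinOver (kur p) E := finOver_llev hfk A (pow_ne_zero _ hp0) hR0
  have hfμ : FinOver (kur p) kμ := finOver_sup hfk (finite_roots (pow_ne_zero _ hp0) 1)
  have hkM : k ≤ M₀ := le_llev _ _ _ _
  have hkE : k ≤ E := le_llev _ _ _ _
  have hME : M₀ ≤ E := by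
    apply llev_le hkE
    · intro x hx
      apply mem_llev_root
      have : p ^ m = p ^ (m - B₀) * p ^ B₀ := by rw [← pow_add]; congr 1; omega
      rw [this, pow_mul, hx, one_pow]
    · intro y a ha hy
      exact mem_llev_rad k _ ha hy
  have hkkμ : k ≤ kμ := le_sup_left
  have hμE : kμ ≤ E := by
    apply sup_le hkE
    rw [IntermediateField.adjoin_le_iff]
    intro x hx
    exact mem_llev_root k A _ hx
  obtain ⟨πM, hπM⟩ := (hS p M₀ hfM).1
  obtain ⟨πμ, hπμ⟩ := (hS p kμ hfμ).1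
  have h1 := step1 hS hF hK hk hfk hA hn hM hπM
  have T1 := hT p k M₀ E hk hkM hME hfE πM πE hπM hπE
  have T2 := hT p k kμ E hk hkkμ hμE hfE πμ πE hπμ hπE
  have hc := hC m πμ hπμ
  have hD1 : ldiff k πE ≤ ldiff k πμ := by
    rw [T2]
    calc _ ≤ 1 * ldiff k πμ :=
          mul_le_mul_of_nonneg_right (ldiff_le_one _ hπE.2.2.1.le) (ldiff_nonneg _ _)
      _ = _ := one_mul _
  have hD0 : 0 ≤ ldiff M₀ πE := ldiff_nonneg _ _
  have hp1 : (1 : ℝ) < p := one_lt_p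
  have hp0' : (0 : ℝ) < p := p_pos'
  have hDD : ldiff M₀ πE ≤ (p : ℝ)⁻¹ := by
    have hX : (0 : ℝ) < (p : ℝ) ^ (m - B₀ + 3 + V) := pow_pos hp0' _
    have h2 : ldiff M₀ πE * ((p : ℝ) ^ (m - B₀ + 3 + V))⁻¹ * (p : ℝ) ^ m ≤ (p : ℝ) ^ C := by
      calc ldiff M₀ πE * ((p : ℝ) ^ (m - B₀ + 3 + V))⁻¹ * (p : ℝ) ^ m
          ≤ ldiff M₀ πE * ldiff k πM * (p : ℝ) ^ m :=
            mul_le_mul_of_nonneg_right (mul_le_mul_of_nonneg_left h1 hD0) (pow_nonneg hp0'.le _)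
        _ = ldiff k πE * (p : ℝ) ^ m := by rw [T1]
        _ ≤ ldiff k πμ * (p : ℝ) ^ m := mul_le_mul_of_nonneg_right hD1 (pow_nonneg hp0'.le _)
        _ ≤ _ := hc
    have h3 : (p : ℝ) ^ m = (p : ℝ) ^ (m - B₀ + 3 + V) * ((p : ℝ) ^ C * (p : ℝ) ^ 2) := by
      rw [← pow_add, ← pow_add]; congr 1; omega
    rw [h3] at h2
    have h4 : ldiff M₀ πE * ((p : ℝ) ^ (m - B₀ + 3 + V))⁻¹ *
        ((p : ℝ) ^ (m - B₀ + 3 + V) * ((p : ℝ) ^ C * (p : ℝ) ^ 2)) =
        (ldiff M₀ πE * (p : ℝ) ^ 2) * (p : ℝ) ^ C := by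
      field_simp
    rw [h4] at h2
    have h5 : ldiff M₀ πE * (p : ℝ) ^ 2 ≤ 1 := by
      have h6 : (0 : ℝ) < (p : ℝ) ^ C := pow_pos hp0' _
      by_contra hcon
      push Not at hcon
      have := mul_lt_mul_of_pos_right hcon h6
      linarith
    have h7 : ldiff M₀ πE * (p : ℝ) ≤ 1 := by
      refine le_trans (mul_le_mul_of_nonneg_left ?_ hD0) h5
      rw [pow_two]
      nlinarith
    calc ldiff M₀ πE = (ldiff M₀ πE * (p : ℝ)) * (p : ℝ)⁻¹ := by field_simp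
      _ ≤ 1 * (p : ℝ)⁻¹ := mul_le_mul_of_nonneg_right h7 (inv_nonneg.mpr hp0'.le)
      _ = _ := one_mul _
  -- counting
  obtain ⟨ζ, hζ⟩ := exists_prim (p := p) (p ^ m) (pow_ne_zero _ hp0)
  have hpm : NeZero (p ^ m) := ⟨pow_ne_zero _ hp0⟩
  have hζ0 : ζ ≠ 0 := hζ.ne_zero (pow_ne_zero _ hp0)
  have hcount : (lorb M₀ πE).ncard ≤ p ^ B₀ := by
    have h := count_le (ι := Unit) (F := M₀) (L := E) (π := πE) hπE.1 (fun _ => ζ)
      (fun _ => hζ0) (p ^ B₀) (pow_pos p_pos _) ?_ ?_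
    · simpa using h
    · intro σ hσ _
      rw [div_pow, ← map_pow]
      have hmem : ζ ^ (p ^ B₀) ∈ M₀ := by
        apply mem_llev_root
        rw [← pow_mul, ← pow_add]
        have : B₀ + (m - B₀) = m := by omega
        rw [this, hζ.pow_eq_one]
      rw [hσ _ hmem, div_self (pow_ne_zero _ hζ0)]
    · intro σ hσ hσζ
      have hσζ' : σ ζ = ζ := hσζ ()
      have : E ≤ fx σ := by
        apply llev_le
        · exact hkM.trans hσ
        · intro x hx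
          obtain ⟨j, -, rfl⟩ := hζ.eq_pow_of_pow_eq_one hx
          rw [mem_fx, map_pow, hσζ']
        · intro y a ha hy
          exact hσ y (mem_llev_rad k _ ha hy)
      exact this
  have hfin : (lorb M₀ πE \ {πE}).Finite := (lorb_finite M₀ πE).sdiff
  obtain ⟨y, hy, hyc⟩ := exists_factor hfin (fun y => ‖πE - y‖) (fun y _ => norm_nonneg _) (by
      rintro y ⟨⟨σ, -, rfl⟩, -⟩
      calc ‖πE - σ πE‖ ≤ max ‖πE‖ ‖σ πE‖ := by
            simpa [sub_eq_add_neg] using IsUltrametricDist.norm_add_le_max πE (-(σ πE))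
        _ ≤ 1 := by rw [norm_aut]; simpa using hπE.2.2.1.le)
    (p ^ B₀) (le_trans (Set.ncard_le_ncard Set.sdiff_subset (lorb_finite M₀ πE)) hcount)
    (p : ℝ)⁻¹ hDD (Or.inl (inv_lt_one_of_one_lt₀ hp1))
  obtain ⟨⟨σ, hσ, rfl⟩, hne⟩ := hy
  exact ⟨σ, hσ, by simpa using hne, hyc⟩

/-! ## The local main theorem -/

theorem l11 : S_STRUCT → S_HERB → S_TOWER → S_FONT → S_KRAS → S_CYC → S_LLT := by
  intro hS hH hT hF hK hCy p _ k hk hfk A hA J
  obtain ⟨V, hV⟩ := exists_V A (fun a ha => (hA a ha).2.1)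
  have hA' : ∀ a ∈ A, a ∈ k ∧ a ≠ 0 ∧ ‖a‖ ≤ 1 ∧ ((p : ℝ) ^ V)⁻¹ ≤ ‖a‖ :=
    fun a ha => ⟨(hA a ha).1, (hA a ha).2.1, (hA a ha).2.2, hV a ha⟩
  obtain ⟨C, hC⟩ := hCy p k hk hfk
  set B₀ := C + V + 5 with hB₀
  have hp0 : p ≠ 0 := (p_pos (p := p)).ne'
  have hp0' : (0 : ℝ) < p := p_pos'
  set N' := (p ^ (J + B₀)) ^ (Fintype.card (Option A)) with hN'
  refine ⟨p ^ B₀ * N' + B₀ + 2, by omega, ?_⟩
  intro m i n M hBm hni hmi hiJ hM
  have hM0 : M ≠ 0 := by rintro rfl; exact hM (dvd_zero p)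
  set n' := min n (m - B₀) with hn'
  have hR0 : p ^ n * M ≠ 0 := mul_ne_zero (pow_ne_zero _ hp0) hM0
  have hR0' : p ^ n' * M ≠ 0 := mul_ne_zero (pow_ne_zero _ hp0) hM0
  set M₀ := llev k A (p ^ (m - B₀)) (p ^ n' * M) with hM₀
  set E := llev k A (p ^ m) (p ^ n' * M) with hE
  set L := llev k A (p ^ i) (p ^ n * M) with hL
  have hfE : FinOver (kur p) E := finOver_llev hfk A (pow_ne_zero _ hp0) hR0'
  have hfL : FinOver (kur p) L := finOver_llev hfk A (pow_ne_zero _ hp0) hR0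
  obtain ⟨πE, hπE⟩ := (hS p E hfE).1
  obtain ⟨πL, hπL⟩ := (hS p L hfL).1
  obtain ⟨σ, hσ, hσne, hσb⟩ := stepA hS hT hF hK hk hfk hA' hC (m := m) (n := n') (M := M)
    (by omega) (by omega) hM hπE
  obtain ⟨ζ, hζ⟩ := exists_prim (p := p) (p ^ m) (pow_ne_zero _ hp0)
  have hpm : NeZero (p ^ m) := ⟨pow_ne_zero _ hp0⟩
  have hζ0 : ζ ≠ 0 := hζ.ne_zero (pow_ne_zero _ hp0)
  -- `σ` moves `ζ`
  have hσζ : σ ζ ≠ ζ := by
    intro hcon
    apply hσne
    have : E ≤ fx σ := by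
      apply llev_le
      · exact (le_llev k A _ _).trans hσ
      · intro x hx
        obtain ⟨j, -, rfl⟩ := hζ.eq_pow_of_pow_eq_one hx
        rw [mem_fx, map_pow, hcon]
      · intro y a ha hy
        exact hσ y (mem_llev_rad k _ ha hy)
    exact this hπE.1
  have hσζ1 : σ (ζ ^ (p ^ B₀)) = ζ ^ (p ^ B₀) := by
    apply hσ
    apply mem_llev_root
    rw [← pow_mul, ← pow_add]
    have : B₀ + (m - B₀) = m := by omega
    rw [this, hζ.pow_eq_one]
  obtain ⟨N, hN1, hN2⟩ := cyc_step (by omega) hζ hσζ1 hσζ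
  set σ₁ := σ ^ N with hσ₁
  have hσ₁M : LFix M₀ σ₁ := lfix_pow hσ N
  have hkur : LFix (kur p) σ₁ := lfix_mono (hk.trans (le_llev k A _ _)) hσ₁M
  have hb1 : ‖πE - σ₁ πE‖ ^ (p ^ B₀) ≤ (p : ℝ)⁻¹ :=
    le_trans (pow_le_pow_left₀ (norm_nonneg _) (norm_sub_pow_aut_le σ πE N) _) hσb
  have hn'n : n' ≤ n := min_le_left _ _
  have hkE : k ≤ E := le_llev _ _ _ _
  have hME : M₀ ≤ E := by
    apply llev_le hkE
    · intro x hx
      apply mem_llev_root
      have : p ^ m = p ^ (m - B₀) * p ^ B₀ := by rw [← pow_add]; congr 1; omega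
      rw [this, pow_mul, hx, one_pow]
    · intro y a ha hy
      exact mem_llev_rad k _ ha hy
  have hEL : E ≤ L := by
    apply llev_le (le_llev _ _ _ _)
    · intro x hx
      apply mem_llev_root
      have : p ^ i = p ^ m * p ^ (i - m) := by rw [← pow_add]; congr 1; omega
      rw [this, pow_mul, hx, one_pow]
    · intro y a ha hy
      obtain ⟨z, hz⟩ := IsAlgClosed.exists_pow_nat_eq y (pow_pos (p_pos (p := p)) (n - n'))
      rw [← hz]
      apply pow_mem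
      apply mem_llev_rad k _ ha
      have : p ^ n * M = p ^ (n - n') * (p ^ n' * M) := by
        rw [← mul_assoc, ← pow_add]; congr 2; omega
      rw [this, pow_mul, hz, hy]
  -- counting the conjugates of `πL` over `E`
  have hcount : (lorb E πL).ncard ≤ N' := by
    obtain ⟨z₀, hz₀⟩ := exists_prim (p := p) (p ^ i) (pow_ne_zero _ hp0)
    have hpi : NeZero (p ^ i) := ⟨pow_ne_zero _ hp0⟩
    have hz00 : z₀ ≠ 0 := hz₀.ne_zero (pow_ne_zero _ hp0)
    have hza : ∀ a : A, ∃ z : Om p, z ^ (p ^ n * M) = a.1 := fun a =>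
      IsAlgClosed.exists_pow_nat_eq a.1 (Nat.pos_of_ne_zero hR0)
    choose za hza using hza
    have hza0 : ∀ a : A, za a ≠ 0 := by
      intro a h0
      have := hza a
      rw [h0, zero_pow hR0] at this
      exact (hA a.1 a.2).2.1 this.symm
    let g : Option A → Om p := fun o => o.elim z₀ za
    have hpow : ∀ (x : Om p) (c : ℕ), x ≠ 0 → c ≤ J + B₀ → x ^ (p ^ c) ∈ E →
        ∀ τ : LAut p, LFix E τ → (τ x / x) ^ (p ^ (J + B₀)) = 1 := by
      intro x c hx0 hc hxE τ hτ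
      have : p ^ (J + B₀) = p ^ c * p ^ (J + B₀ - c) := by rw [← pow_add]; congr 1; omega
      rw [this, pow_mul, div_pow, ← map_pow, hτ _ hxE, div_self (pow_ne_zero _ hx0), one_pow]
    have hgR : ∀ τ : LAut p, LFix E τ → ∀ o, (τ (g o) / g o) ^ (p ^ (J + B₀)) = 1 := by
      intro τ hτ o
      rcases o with _ | a
      · apply hpow z₀ (i - m) hz00 (by omega) _ τ hτ
        apply mem_llev_root
        rw [← pow_mul, ← pow_add]
        have : i - m + m = i := by omega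
        rw [this, hz₀.pow_eq_one]
      · apply hpow (za a) (n - n') (hza0 a) (by omega) _ τ hτ
        apply mem_llev_rad k _ a.2
        rw [← pow_mul, ← mul_assoc, ← pow_add]
        have : n - n' + n' = n := by omega
        rw [this, hza]
    have hgen : ∀ τ : LAut p, LFix E τ → (∀ o, τ (g o) = g o) → LFix L τ := by
      intro τ hτ hg
      have h0 : τ z₀ = z₀ := hg none
      have h1 : ∀ x : Om p, x ^ (p ^ i) = 1 → τ x = x := by
        intro x hx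
        obtain ⟨j, -, rfl⟩ := hz₀.eq_pow_of_pow_eq_one hx
        rw [map_pow, h0]
      have : L ≤ fx τ := by
        apply llev_le
        · exact hkE.trans hτ
        · exact h1
        · intro y a ha hy
          have h2 : τ (za ⟨a, ha⟩) = za ⟨a, ha⟩ := hg (some ⟨a, ha⟩)
          have h3 := hza ⟨a, ha⟩
          have h4 := hza0 ⟨a, ha⟩
          simp only at h3
          have hy0 : y ≠ 0 := by
            intro h0
            rw [h0, zero_pow hR0] at hy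
            exact (hA a ha).2.1 hy.symm
          have h5 : (y / za ⟨a, ha⟩) ^ (p ^ n * M) = 1 := by
            rw [div_pow, hy, h3, div_self (hA a ha).2.1]
          obtain ⟨x, w, hx, hw, hxw⟩ := root_decomp (p := p) (a := p ^ n) (b := M)
            (Nat.Coprime.pow_left _ (((Fact.out : p.Prime).coprime_iff_not_dvd).mpr hM))
            (div_ne_zero hy0 h4) h5
          have hxτ : τ x = x := by
            apply h1
            have : p ^ i = p ^ n * p ^ (i - n) := by rw [← pow_add]; congr 1; omega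
            rw [this, pow_mul, hx, one_pow]
          have hwτ : τ w = w := hτ w (hkE (hk (mem_kur_of_pow hM hw)))
          have hyy : y = za ⟨a, ha⟩ * (x * w) := by
            rw [← hxw]; field_simp
          rw [mem_fx, hyy, map_mul, map_mul, h2, hxτ, hwτ]
      exact this
    have h := count_le (ι := Option A) (F := E) (L := L) hπL.1 g
      (by rintro (_ | a); exacts [hz00, hza0 a]) (p ^ (J + B₀)) (pow_pos p_pos _) hgR hgen
    exact h
  obtain ⟨y, hy, hyc⟩ := exists_factor (lorb_finite E πL) (fun y => ‖πL - σ₁ y‖)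
    (fun y _ => norm_nonneg _) (by
      rintro y ⟨τ, -, rfl⟩
      calc ‖πL - σ₁ (τ πL)‖ ≤ max ‖πL‖ ‖σ₁ (τ πL)‖ := by
            simpa [sub_eq_add_neg] using IsUltrametricDist.norm_add_le_max πL (-(σ₁ (τ πL)))
        _ ≤ 1 := by rw [norm_aut, norm_aut]; simpa using hπL.2.2.1.le)
    N' hcount ‖πE - σ₁ πE‖ (le_of_eq (hH p E L (hk.trans hkE) hEL hfL πE πL hπE hπL σ₁ hkur))
    (Or.inr ⟨πL, self_mem_lorb E πL⟩)
  obtain ⟨τ, hτ, rfl⟩ := hy
  refine ⟨σ₁ * τ, ?_, ?_, ?_⟩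
  · have : llev k A (p ^ (m - 1)) (p ^ (min n (m - (p ^ B₀ * N' + B₀ + 2))) * M) ≤
        fx (σ₁ * τ) := by
      apply llev_le
      · intro x hx
        rw [mem_fx, AlgEquiv.mul_apply, hτ x (hkE hx), hσ₁M x (le_llev _ _ _ _ hx)]
      · intro x hx
        have hζp : IsPrimitiveRoot (ζ ^ p) (p ^ (m - 1)) := by
          apply hζ.pow (pow_pos p_pos _)
          rw [← pow_succ']; congr 1; omega
        have : NeZero (p ^ (m - 1)) := ⟨pow_ne_zero _ hp0⟩
        have hxE : x ∈ E := by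
          apply mem_llev_root
          have : p ^ m = p ^ (m - 1) * p := by rw [← pow_succ]; congr 1; omega
          rw [this, pow_mul, hx, one_pow]
        obtain ⟨j, -, rfl⟩ := hζp.eq_pow_of_pow_eq_one hx
        rw [mem_fx, AlgEquiv.mul_apply, hτ _ hxE, map_pow, hN2]
      · intro y a ha hy
        set n'' := min n (m - (p ^ B₀ * N' + B₀ + 2)) with hn''
        have hle : n'' ≤ n' := by
          rw [hn'', hn']
          exact min_le_min le_rfl (by omega)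
        have hyM : y ∈ M₀ := by
          obtain ⟨z, hz⟩ := IsAlgClosed.exists_pow_nat_eq y (pow_pos (p_pos (p := p)) (n' - n''))
          rw [← hz]
          apply pow_mem
          apply mem_llev_rad k _ ha
          have : p ^ n' * M = p ^ (n' - n'') * (p ^ n'' * M) := by
            rw [← mul_assoc, ← pow_add]; congr 2; omega
          rw [this, pow_mul, hz, hy]
        rw [mem_fx, AlgEquiv.mul_apply, hτ y (hME hyM), hσ₁M y hyM]
    exact this
  · intro ζ' hζ' hcon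
    rw [AlgEquiv.mul_apply, hτ ζ' (mem_llev_root k A _ hζ'.pow_eq_one)] at hcon
    obtain ⟨j, -, hj⟩ := hζ'.eq_pow_of_pow_eq_one hζ.pow_eq_one
    apply hN1
    rw [← hj, map_pow, hcon]
  · intro x hx hx1
    have hk2 : LFix (kur p) (σ₁ * τ) := lfix_mul hkur (lfix_mono (hk.trans hkE) hτ)
    have h1 := move_le hS hfL hπL hk2 hx hx1
    rw [AlgEquiv.mul_apply, AlgEquiv.mul_apply] at h1
    set t := ‖πL - σ₁ (τ πL)‖ with ht
    have h2 : ‖σ₁ (τ πL) - πL‖ = t := norm_sub_rev _ _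
    rw [h2] at h1
    have ht0 : 0 ≤ t := norm_nonneg _
    have ht1 : t ≤ 1 := by
      rw [ht]
      calc ‖πL - σ₁ (τ πL)‖ ≤ max ‖πL‖ ‖σ₁ (τ πL)‖ := by
            simpa [sub_eq_add_neg] using IsUltrametricDist.norm_add_le_max πL (-(σ₁ (τ πL)))
        _ ≤ 1 := by rw [norm_aut, norm_aut]; simpa using hπL.2.2.1.le
    rw [AlgEquiv.mul_apply]
    calc ‖σ₁ (τ x) - x‖ ^ (p ^ B₀ * N' + B₀ + 2) ≤ t ^ (p ^ B₀ * N' + B₀ + 2) :=
          pow_le_pow_left₀ (norm_nonneg _) h1 _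
      _ ≤ t ^ (N' * p ^ B₀) := pow_le_pow_of_le_one ht0 ht1 (by rw [mul_comm]; omega)
      _ = (t ^ N') ^ (p ^ B₀) := pow_mul _ _ _
      _ ≤ ‖πE - σ₁ πE‖ ^ (p ^ B₀) := pow_le_pow_left₀ (pow_nonneg ht0 _) hyc _
      _ ≤ _ := hb1

end Pool.Agent.W133.RK
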